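import Pool.Agent.Y311.DN.Comm
import Pool.Agent.Y311.UB.Cubes

/-!
# Pointwise convergence in density: commuting maps, polynomials of degree one

`T_0, …, T_m` are arbitrary commuting invertible measure preserving maps of an arbitrary probability
space. The averages of `∏ f_i (T_i^(a_i n + b_i) x)` converge at almost every point `x` off a subset
of small density of the orbit of `x` under `T_1, …, T_m` (`T_0` is not needed), uniformly in all
sufficiently large `N` and all sufficiently long windows.
-/

set_option autoImplicit false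

open Filter Topology MeasureTheory
open scoped ENNReal

namespace Pool.Agent.Results.MP_d464d9_an.DensityLinear

/-- The averages over `1 ≤ n ≤ N` of `∏_i f_i (T_i^(a_i n + b_i) x)`. -/
noncomputable def avg {k : ℕ} {X : Type*} (T : Fin k → Equiv.Perm X) (a b : Fin k → ℤ)
    (f : Fin k → X → ℂ) (N : ℕ) (x : X) : ℂ :=
  (N : ℂ)⁻¹ * ∑ n ∈ Finset.Icc 1 N, ∏ i, f i ((T i ^ (a i * n + b i)) x)

/-- Let `T_0, …, T_m` be commuting invertible measure preserving maps of a probability space,
`f_0, …, f_m ∈ L^∞`, and `a_i`, `b_i` integers. There is a bounded measurable `F`, the limit of the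
averages `A_N` in `L^2`, such that for almost every `x` and all `ε > 0` there is `K` such that,
whenever `N` and all the `L_i` are at least `K`, one has `|A_N - F| < ε` at the point
`T_1^(c_1) ⋯ T_m^(c_m) x` for all but at most `ε L_1 ⋯ L_m` of the `c ∈ [L_1] × ⋯ × [L_m]`. -/
theorem result (m : ℕ) {X : Type*} [MeasurableSpace X] (μ : Measure X) [IsProbabilityMeasure μ]
    (T : Fin (m + 1) → Equiv.Perm X) (hTm : ∀ i, Measurable (T i).symm)
    (hT : ∀ i, MeasurePreserving (T i) μ μ) (hc : ∀ i j, Commute (T i) (T j))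
    (a b : Fin (m + 1) → ℤ) (f : Fin (m + 1) → X → ℂ) (hf : ∀ i, MemLp (f i) ∞ μ) :
    ∃ (F : X → ℂ) (C : ℝ), Measurable F ∧ (∀ x, ‖F x‖ ≤ C) ∧
      Tendsto (fun N : ℕ => ∫ x, ‖avg T a b f N x - F x‖ ^ 2 ∂μ) atTop (𝓝 0) ∧
      ∀ᵐ x ∂μ, ∀ ε : ℝ, 0 < ε → ∃ K : ℕ, ∀ (N : ℕ) (L : Fin m → ℕ), K ≤ N → (∀ i, K ≤ L i) →
        (((Fintype.piFinset (fun i => Finset.Icc 1 (L i))).filter fun c =>
          ε ≤ ‖avg T a b f N ((List.ofFn fun i => T i.succ ^ c i).prod x) -
            F ((List.ofFn fun i => T i.succ ^ c i).prod x)‖).card : ℝ) ≤ ε * ∏ i, (L i : ℝ) := by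
  have h := Pool.Agent.Y311.DN.one_dens (H := Fin (m + 1) → ℤ)
    (v := fun z : Option (Fin m) => z.elim (Pi.single 0 (a 0)) fun j => Pi.single j.succ (a j.succ))
    (b := fun z => z.elim (Pi.single 0 (b 0)) fun j => Pi.single j.succ (b j.succ))
    (u := fun s : Fin m => (Pi.single s.succ 1 : Fin (m + 1) → ℤ))
    (fun j => ⟨Pi.single j (a j.succ), by
      rw [Finset.sum_eq_single j]
      · rw [Pi.single_eq_same, ← Pi.single_smul, smul_eq_mul, mul_one]
        rfl
      · intro i _ hi
        rw [Pi.single_eq_of_ne hi, zero_smul]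
      · intro hj
        exact absurd (Finset.mem_univ _) hj⟩)
    (Pool.Agent.Y311.UB.act_prod hTm hT hc) (f := fun z => z.elim (f 0) fun j => f j.succ)
    (fun z => by
      rcases z with _ | j
      · exact hf 0
      · exact hf j.succ) (A := avg T a b f) (fun N x => by
      rw [avg]
      congr 1
      refine Finset.sum_congr rfl fun n _ => ?_
      rw [Fintype.prod_option, Fin.prod_univ_succ]
      have hz : ∀ j : Fin (m + 1), (n : ℤ) • (Pi.single j (a j) : Fin (m + 1) → ℤ) +
          Pi.single j (b j) = Pi.single j (a j * n + b j) := by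
        intro j
        rw [← Pi.single_smul, ← Pi.single_add, smul_eq_mul, mul_comm]
      simp only [Option.elim_none, Option.elim_some, hz]
      rw [Pool.Agent.Y311.UB.prod_single]
      congr 1
      refine Finset.prod_congr rfl fun j _ => ?_
      rw [Pool.Agent.Y311.UB.prod_single])
  have hw : ∀ c : Fin m → ℕ, (List.ofFn fun i : Fin (m + 1) =>
      T i ^ (∑ s : Fin m, ((c s : ℕ) : ℤ) • (Pi.single s.succ 1 : Fin (m + 1) → ℤ)) i).prod =
      (List.ofFn fun i : Fin m => T i.succ ^ c i).prod := by
    intro c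
    have e : (∑ s : Fin m, ((c s : ℕ) : ℤ) • (Pi.single s.succ 1 : Fin (m + 1) → ℤ)) =
        fun i => Fin.cases 0 (fun s => ((c s : ℕ) : ℤ)) i := by
      funext i
      refine Fin.cases ?_ (fun t => ?_) i
      · rw [Finset.sum_apply, Finset.sum_eq_zero]
        · rfl
        · intro s _
          rw [Pi.smul_apply, Pi.single_eq_of_ne (Fin.succ_ne_zero s).symm, smul_zero]
      · rw [Finset.sum_apply, Finset.sum_eq_single t]
        · rw [Pi.smul_apply, Pi.single_eq_same, smul_eq_mul, mul_one]
          rfl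
        · intro s _ hs
          rw [Pi.smul_apply, Pi.single_eq_of_ne, smul_zero]
          exact fun h => hs (Fin.succ_injective _ h).symm
        · intro ht
          exact absurd (Finset.mem_univ _) ht
    rw [e, List.ofFn_succ, List.prod_cons]
    simp only [Fin.cases_zero, Fin.cases_succ, zpow_zero, one_mul, zpow_natCast]
  simp only [hw] at h
  exact h

end Pool.Agent.Results.MP_d464d9_an.DensityLinear
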