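import Pool.Agent.Y957.MC.Maps

set_option autoImplicit false

/-!
# Multiple ergodic averages of arbitrary maps along integer parts of generic multiples of polynomials and powers

Let `T_1, ..., T_m` be measure preserving maps of a probability space, with no relation between them (they need not
commute nor be invertible), and let each `p_j` be a real polynomial of positive degree with positive leading
coefficient, or a power `n^θ` with real `θ > 0`. For Lebesgue almost every `(a_1, ..., a_m)` with positive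
coordinates the averages of `∏ f_j (T_j^⌊a_j p_j(n)⌋ x)` converge for almost every `x`, for `f_j` in `L^∞`, and the
limit is the product of the conditional expectations of the `f_j` on the `T_j`-invariant sets.

Proof (`Pool.Agent.Y957.MC`, theorems `bty_all`, `maps_Linf`): one factor against arbitrary bounded weights. For
almost every `x`, for every bounded sequence `B` and almost every `a > 0`,
`(1/N) ∑ B(n) (f (T^⌊a p(n)⌋ x) - E(f|T)(x)) → 0`; see `Pool.Agent.Results.MP_4d8f14_an.GenericTimesOfFlows` for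
the main idea (Parseval in `log a`). Here the functions `u ↦ f(T^⌊u⌋ x)` replace `u ↦ f(τ^u x)`, for
coboundaries `f`, and the error is controlled with the suspension flow.
-/

namespace Pool.Agent.Results.MP_d464d9_an.GenericBeattyTimes

open MeasureTheory Filter Finset

universe u

theorem result (X : Type u) [MeasurableSpace X] (μ : Measure X) [IsProbabilityMeasure μ] (m : ℕ)
    (T : Fin m → X → X) (hT : ∀ j, MeasurePreserving (T j) μ μ) (p : Fin m → ℕ → ℝ)
    (hp : ∀ j, (∃ P : Polynomial ℝ, 0 < P.natDegree ∧ 0 < P.leadingCoeff ∧ ∀ n : ℕ, p j n = P.eval (n : ℝ)) ∨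
      (∃ θ : ℝ, 0 < θ ∧ ∀ n : ℕ, p j n = (n : ℝ) ^ θ))
    (f : Fin m → X → ℂ) (hf : ∀ j, AEStronglyMeasurable (f j) μ) (hfb : ∀ j, ∃ C : ℝ, ∀ᵐ x ∂μ, ‖f j x‖ ≤ C) :
    ∀ᵐ a : Fin m → ℝ, (∀ j, 0 < a j) → ∀ᵐ x ∂μ,
      Tendsto (fun N : ℕ => (1 / (N : ℂ)) * ∑ n ∈ Icc 1 N, ∏ j, f j ((T j)^[⌊a j * p j n⌋₊] x)) atTop
        (nhds (∏ j, (μ[f j | MeasurableSpace.invariants (T j)]) x)) := by
  refine Pool.Agent.Y957.MC.maps_Linf hT (fun j => ?_) hf hfb
  rcases hp j with ⟨P, h1, h2, h3⟩ | ⟨θ, h1, h2⟩
  · have := Pool.Agent.Y957.MC.good_poly h1 h2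
    rwa [show p j = fun n : ℕ => P.eval (n : ℝ) from funext h3]
  · have := Pool.Agent.Y957.MC.good_pow h1
    rwa [show p j = fun n : ℕ => (n : ℝ) ^ θ from funext h2]

end Pool.Agent.Results.MP_d464d9_an.GenericBeattyTimes
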